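import Pool.Agent.Helper335.NSS.Main

/-! # MP_dabcc5_co: every field of characteristic at least five and every `k`

For every finite field `F` of characteristic at least five (that is `2 ≠ 0` and `3 ≠ 0` in `F`)
and every `k ≥ 1` there is a normal tangential `k`-block over `F`, of rank `k + 2`, without a
modular hyperplane; in particular it is not supersolvable. -/

namespace Pool.Agent.Results.MP_dabcc5_co.EveryCharacteristicAtLeastFive

open Pool.Agent.Helper236

/-- The critical exponent `c(M; q)`, as the least positive integer `j` with `p(M; q ^ j) > 0`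
(and `∞` if there is none). -/
noncomputable def critExpPos {α : Type} (M : Matroid α) (q : ℕ) : ℕ∞ :=
  ⨅ j ∈ {j : ℕ | 0 < j ∧ 0 < (charPoly M).eval ((q : ℤ) ^ j)}, (j : ℕ∞)

/-- `M` is a tangential `k`-block over the finite field `F`: it is finite, simple and representable
over `F`, its critical exponent is larger than `k`, and every loopless proper minor of `M` has
critical exponent at most `k`. -/
def IsTangentialBlock (F : Type) [Field F] (k : ℕ) {α : Type} (M : Matroid α) : Prop :=
  M.Finite ∧ IsSimple M ∧ Representable F M ∧ (k : ℕ∞) < critExpPos M (Nat.card F) ∧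
    ∀ N : Matroid α, N.IsMinor M → N ≠ M → (∀ e ∈ N.E, N.IsNonloop e) →
      critExpPos N (Nat.card F) ≤ k

/-- `M` is supersolvable: there is a chain of modular flats `G 0 ⊆ G 1 ⊆ ... ⊆ G r` with
`r (G i) = i`, where `r` is the rank of `M`. -/
def IsSupersolvable {α : Type} (M : Matroid α) : Prop :=
  ∃ G : ℕ → Set α, (∀ i ≤ rk M M.E, IsModularFlat M (G i) ∧ rk M (G i) = i) ∧
    ∀ i < rk M M.E, G i ⊆ G (i + 1)

/-- **Normal tangential blocks without modular hyperplanes**, over every finite field of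
characteristic at least five and for every `k ≥ 1`. -/
theorem result (F : Type) [Field F] [Finite F] (hp : 5 ≤ ringChar F) (k : ℕ) (hk : 1 ≤ k) :
    ∃ (α : Type) (M : Matroid α), rk M M.E = k + 2 ∧ IsTangentialBlock F k M ∧
      IsNormal (Nat.card F) k M ∧ (¬ ∃ H, IsModularHyperplane M H) ∧ ¬ IsSupersolvable M := by
  have h2 : (2 : F) ≠ 0 := by
    intro h
    have h1 : ringChar F ∣ 2 := ringChar.dvd (by exact_mod_cast h)
    have := Nat.le_of_dvd (by norm_num) h1
    omega
  have h3 : (3 : F) ≠ 0 := by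
    intro h
    have h1 : ringChar F ∣ 3 := ringChar.dvd (by exact_mod_cast h)
    have := Nat.le_of_dvd (by norm_num) h1
    omega
  obtain ⟨r, rfl⟩ : ∃ r, k = r + 1 := ⟨k - 1, by omega⟩
  have hfin := Pool.Agent.Helper335.NSS.Mat_finite (F := F) (r := r)
  have hrep := Pool.Agent.Helper335.NSS.Mat_rep (F := F) (r := r)
  have hs := Pool.Agent.Helper335.NSS.Mat_simple (F := F) (r := r)
  have hrank := Pool.Agent.Helper335.NSS.Mat_rank (F := F) (r := r) h2 h3
  have hnm := Pool.Agent.Helper335.NSS.Mat_not_modular (F := F) (r := r) h2 h3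
  refine ⟨_, Pool.Agent.Helper335.NSS.Mat F r, by rw [hrank], ⟨hfin, hs, ?_, ?_, ?_⟩,
    Pool.Agent.Helper335.NSS.Mat_normal h2 h3, hnm, ?_⟩
  · let e := (Module.finBasis F (Pool.Agent.Helper335.NSS.Sp F r)).equivFun
    exact ⟨_, _, hrep.comp_injective e.toLinearMap e.injective⟩
  · have h1 : ((r + 1 : ℕ) : ℕ∞) < critExp (Pool.Agent.Helper335.NSS.Mat F r) (Nat.card F) :=
      (lt_critExp_iff hrep (r + 1)).2 (Pool.Agent.Helper335.NSS.Mat_block h2 h3)
    refine lt_of_lt_of_le h1 ?_
    refine le_iInf₂ fun j hj => ?_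
    exact iInf₂_le j hj.2
  · intro N hN hne hl
    have h1 := minor_le hrep hs (Pool.Agent.Helper335.NSS.Mat_flats h2 h3) hN hne hl
    obtain ⟨C, D, hC, -, -, rfl⟩ := hN.exists_eq_contract_delete_disjoint
    have hrep' := hrep.minor C D hC
    have h4 := (critExp_le_iff hrep' (r + 1)).1 h1
    have h5 := (eval_pos_iff hrep' (r + 1)).2 h4
    exact iInf₂_le (r + 1 : ℕ) ⟨Nat.succ_pos r, h5⟩
  · rintro ⟨G, hG, -⟩
    obtain ⟨h1, h4⟩ := hG (rk (Pool.Agent.Helper335.NSS.Mat F r)
      (Pool.Agent.Helper335.NSS.Mat F r).E - 1) (by omega)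
    exact hnm ⟨_, h1, by omega⟩

end Pool.Agent.Results.MP_dabcc5_co.EveryCharacteristicAtLeastFive
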